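import Mathlib
import Pool.Agent.N176.OW.Stm3

set_option autoImplicit false

/-!
# The Poisson law for prime rough parts: the generating function (helper413)
-/

namespace Pool.Agent.N413.OW

open Finset Filter Topology MeasureTheory
open Pool.Agent.N176.OW

/-- iteration of one step estimates -/
lemma iter (a y e : ℕ → ℝ) (K : ℝ) (P' : ℕ) (hK : 0 ≤ K) (haK : a P' = K)
    (hy0 : ∀ i, 0 ≤ y i) (hy1 : ∀ i, y i ≤ 1)
    (hs : ∀ i, P' ≤ i → |a (i + 1) - (1 - y i) * a i| ≤ e i) (J : ℕ) (hJ : P' ≤ J) :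
    |a J - K * Real.exp (-∑ i ∈ Ico P' J, y i)| ≤ ∑ i ∈ Ico P' J, (e i + K * y i ^ 2) := by
  induction J, hJ using Nat.le_induction with
  | base => simp [haK]
  | succ J hJ ih =>
    rw [Finset.sum_Ico_succ_top hJ, Finset.sum_Ico_succ_top hJ]
    set s := ∑ i ∈ Ico P' J, y i with hs'
    have hs0 : 0 ≤ s := Finset.sum_nonneg fun i _ => hy0 i
    have hexp : Real.exp (-(s + y J)) = Real.exp (-s) * Real.exp (-y J) := by
      rw [← Real.exp_add]
      congr 1
      ring
    have h1 := hs J hJ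
    have h2 : |1 - y J - Real.exp (-y J)| ≤ y J ^ 2 := by
      have h := Real.abs_exp_sub_one_sub_id_le (x := -y J) (by
        rw [abs_neg, abs_of_nonneg (hy0 J)]; exact hy1 J)
      rw [neg_sq] at h
      rw [abs_sub_comm]
      have e1 : Real.exp (-y J) - (1 - y J) = Real.exp (-y J) - 1 - -y J := by ring
      rw [e1]
      exact h
    have h3 : |K * Real.exp (-s)| ≤ K := by
      rw [abs_of_nonneg (mul_nonneg hK (Real.exp_pos _).le)]
      exact mul_le_of_le_one_right hK (Real.exp_le_one_iff.2 (by linarith))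
    have h4 : |1 - y J| ≤ 1 := by
      rw [abs_le]
      constructor <;> linarith [hy0 J, hy1 J]
    have e2 : a (J + 1) - K * Real.exp (-(s + y J)) =
        (a (J + 1) - (1 - y J) * a J) + (1 - y J) * (a J - K * Real.exp (-s)) +
          (1 - y J - Real.exp (-y J)) * (K * Real.exp (-s)) := by
      rw [hexp]
      ring
    rw [e2]
    calc |(a (J + 1) - (1 - y J) * a J) + (1 - y J) * (a J - K * Real.exp (-s)) +
          (1 - y J - Real.exp (-y J)) * (K * Real.exp (-s))|
        ≤ |a (J + 1) - (1 - y J) * a J| + |(1 - y J) * (a J - K * Real.exp (-s))| +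
          |(1 - y J - Real.exp (-y J)) * (K * Real.exp (-s))| :=
          (abs_add_le _ _).trans (by gcongr; exact abs_add_le _ _)
      _ ≤ e J + 1 * (∑ i ∈ Ico P' J, (e i + K * y i ^ 2)) + y J ^ 2 * K := by
          rw [abs_mul, abs_mul]
          gcongr
      _ = ∑ i ∈ Ico P' J, (e i + K * y i ^ 2) + (e J + K * y J ^ 2) := by ring

lemma sum_inv_sq (P' J : ℕ) (hP : 1 ≤ P') (hJ : P' ≤ J) :
    ∑ i ∈ Ico P' J, 1 / (i : ℝ) ^ 2 ≤ (2 : ℝ) / P' - 2 / J := by
  induction J, hJ using Nat.le_induction with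
  | base => simp
  | succ J hJ ih =>
    rw [Finset.sum_Ico_succ_top hJ]
    have hJ1 : (1 : ℝ) ≤ J := by exact_mod_cast hP.trans hJ
    have h1 : 1 / (J : ℝ) ^ 2 ≤ 2 / J - 2 / ((J + 1 : ℕ) : ℝ) := by
      push_cast
      rw [div_sub_div _ _ (by positivity) (by positivity), div_le_div_iff₀ (by positivity)
        (by positivity)]
      nlinarith
    linarith

/-- the blocks are a partition -/
lemma sum_blocks (T : Finset ℕ) (F : ℕ → ℝ) (P' J : ℕ) (hJ : P' ≤ J)
    (hT : ∀ p ∈ T, 2 ^ P' < p) :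
    ∑ q ∈ TL T J, F q = ∑ i ∈ Ico P' J, ∑ q ∈ TB T i, F q := by
  classical
  induction J, hJ using Nat.le_induction with
  | base =>
    have h : TL T P' = ∅ := by
      unfold TL
      rw [Finset.filter_eq_empty_iff]
      intro p hp
      have := hT p hp
      omega
    rw [h]
    simp
  | succ J hJ ih =>
    rw [Finset.sum_Ico_succ_top hJ, ← ih]
    have hpow : 2 ^ J ≤ 2 ^ (J + 1) := Nat.pow_le_pow_right (by norm_num) (by omega)
    have h : TL T (J + 1) = TL T J ∪ TB T J := by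
      ext p
      unfold TL TB
      simp only [mem_filter, mem_union]
      constructor
      · rintro ⟨h1, h2⟩
        by_cases h3 : p ≤ 2 ^ J
        · exact Or.inl ⟨h1, h3⟩
        · exact Or.inr ⟨h1, by omega, h2⟩
      · rintro (⟨h1, h2⟩ | ⟨h1, h2, h3⟩)
        · exact ⟨h1, h2.trans hpow⟩
        · exact ⟨h1, h3⟩
    rw [h, Finset.sum_union]
    rw [Finset.disjoint_left]
    intro p hp hp'
    unfold TL at hp
    unfold TB at hp'
    rw [mem_filter] at hp hp'
    omega

lemma VT_nn (T : Finset ℕ) : 0 ≤ VT T := by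
  unfold VT
  refine Finset.sum_nonneg fun p _ => ?_
  have := Real.log_natCast_nonneg p
  positivity

lemma kap_bounds {b : ℕ} (hb : 2 ≤ b) : 0 ≤ kap b ∧ kap b ≤ 4 := by
  have hlog2 : Real.log 2 ≤ Real.log b := Real.log_le_log (by norm_num) (by exact_mod_cast hb)
  have h2 := Real.log_two_gt_d9
  have hlog : 0 < Real.log b := by linarith
  unfold kap
  refine ⟨by positivity, ?_⟩
  rw [div_le_iff₀ hlog]
  have h3 : Real.exp Real.eulerMascheroniConstant ≤ Real.exp 1 :=
    Real.exp_le_exp.2 (by linarith [Real.eulerMascheroniConstant_lt_two_thirds])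
  have h4 := Real.exp_one_lt_d9
  linarith

theorem p2 (h : S_P1) : S_P2 := by
  intro b hb m A B hA hAB
  obtain ⟨C, hC, P, hP⟩ := h b hb m A B hA hAB
  have hb0 : (0 : ℝ) < b := by exact_mod_cast (by omega : 0 < b)
  set K : ℝ := ((B : ℝ) - A) / (b : ℝ) ^ m with hKdef
  have hK : 0 ≤ K := by
    have : (A : ℝ) < B := by exact_mod_cast hAB
    have h1 : (0 : ℝ) ≤ (B : ℝ) - A := by linarith
    positivity
  obtain ⟨hk0, hk4⟩ := kap_bounds hb
  refine ⟨2 * C + 16 * K, by positivity, max P (max m 1), ?_⟩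
  intro P' hP' J T hT hPJ δ hδ0 hδ hδT θ hθ0 hθ1
  have hPP : P ≤ P' := le_trans (le_max_left _ _) hP'
  have hmP : m ≤ P' := le_trans (le_trans (le_max_left _ _) (le_max_right _ _)) hP'
  have h1P : 1 ≤ P' := le_trans (le_trans (le_max_right _ _) (le_max_right _ _)) hP'
  have hT1 : ∀ p ∈ T, p.Prime ∧ 2 ^ P < p := fun p hp =>
    ⟨(hT p hp).1, lt_of_le_of_lt (Nat.pow_le_pow_right (by norm_num) hPP) (hT p hp).2.1⟩
  have hT2 : ∀ p ∈ T, 2 ^ P' < p := fun p hp => (hT p hp).2.1
  set a : ℕ → ℝ := fun i => Av b m A B (2 ^ i) (fun n => θ ^ (hits (TL T i) b (2 ^ i) n).card)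
    with ha
  set y : ℕ → ℝ := fun i => (1 - θ) * (kap b * VT (TB T i)) with hy
  set cp : ℕ → ℝ := fun q => ∑ p ∈ T.filter (fun p => p < q), Real.log p / p / (b : ℝ) ^ (q - p)
    with hcp
  set e : ℕ → ℝ := fun i => C * (δ * VT (TB T i) + VT (TB T i) / i + 1 / (i : ℝ) ^ 2 +
    ∑ q ∈ TB T i, cp q) with he
  have hyδ : ∀ i, y i ≤ 4 * VT (TB T i) := by
    intro i
    have h1 := VT_nn (TB T i)
    have h2 : kap b * VT (TB T i) ≤ 4 * VT (TB T i) := mul_le_mul_of_nonneg_right hk4 h1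
    have h3 : 0 ≤ kap b * VT (TB T i) := mul_nonneg hk0 h1
    have h4 : (1 - θ) * (kap b * VT (TB T i)) ≤ 1 * (kap b * VT (TB T i)) :=
      mul_le_mul_of_nonneg_right (by linarith) h3
    simp only [hy]
    linarith
  have hy0 : ∀ i, 0 ≤ y i := by
    intro i
    simp only [hy]
    exact mul_nonneg (by linarith) (mul_nonneg hk0 (VT_nn _))
  have hy1 : ∀ i, y i ≤ 1 := by
    intro i
    have h1 := hyδ i
    have h2 := hδT i
    linarith
  have haP : a P' = K := by
    have hempty : TL T P' = ∅ := by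
      unfold TL
      rw [Finset.filter_eq_empty_iff]
      intro p hp
      have := hT2 p hp
      omega
    simp only [ha]
    unfold Av
    rw [hempty]
    have h1 : ∀ n, (hits ∅ b (2 ^ P') n).card = 0 := by
      intro n
      unfold hits
      simp
    simp only [h1, pow_zero, Finset.sum_const, Nat.card_Ico, nsmul_eq_mul, mul_one]
    have h2 : m ≤ 2 ^ P' := hmP.trans Nat.lt_two_pow_self.le
    have h3 : B * b ^ (2 ^ P' - m) - A * b ^ (2 ^ P' - m) = (B - A) * b ^ (2 ^ P' - m) := by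
      rw [Nat.sub_mul]
    rw [h3]
    have h4 : (b : ℝ) ^ (2 ^ P') = (b : ℝ) ^ (2 ^ P' - m) * (b : ℝ) ^ m := by
      rw [← pow_add, Nat.sub_add_cancel h2]
    rw [h4, hKdef]
    push_cast [Nat.cast_sub hAB.le]
    have h5 : (b : ℝ) ^ (2 ^ P' - m) ≠ 0 := by positivity
    field_simp
  have hstep : ∀ i, P' ≤ i → |a (i + 1) - (1 - y i) * a i| ≤ e i := by
    intro i hi
    exact hP T hT1 δ hδ0 hδ hδT θ hθ0 hθ1 i (hPP.trans hi)
  have hmain := iter a y e K P' hK haP hy0 hy1 hstep J hPJ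
  have hTL : TL T J = T := by
    unfold TL
    rw [Finset.filter_eq_self]
    exact fun p hp => (hT p hp).2.2
  have hVT : ∑ i ∈ Ico P' J, VT (TB T i) = VT T := by
    have h1 := sum_blocks T (fun q => Real.log q / q) P' J hPJ hT2
    rw [hTL] at h1
    exact h1.symm
  have hCP : ∑ i ∈ Ico P' J, ∑ q ∈ TB T i, cp q = ∑ q ∈ T, cp q := by
    have h1 := sum_blocks T cp P' J hPJ hT2
    rw [hTL] at h1
    exact h1.symm
  have haJ : a J = Av b m A B (2 ^ J) (fun n => θ ^ (hits T b (2 ^ J) n).card) := by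
    simp only [ha]
    rw [hTL]
  have hsy : ∑ i ∈ Ico P' J, y i = (1 - θ) * (kap b * VT T) := by
    simp only [hy]
    rw [← Finset.mul_sum, ← Finset.mul_sum, hVT]
  rw [haJ, hsy] at hmain
  refine hmain.trans ?_
  have hPr : (0 : ℝ) < P' := by exact_mod_cast h1P
  -- the sum of the errors
  have hE : ∑ i ∈ Ico P' J, e i ≤ C * (δ * VT T + VT T / P' + 2 / P' + ∑ q ∈ T, cp q) := by
    simp only [he]
    rw [← Finset.mul_sum]
    refine mul_le_mul_of_nonneg_left ?_ hC.le
    rw [Finset.sum_add_distrib, Finset.sum_add_distrib, Finset.sum_add_distrib, hCP,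
      ← Finset.mul_sum, hVT]
    have h1 : ∑ i ∈ Ico P' J, VT (TB T i) / (i : ℝ) ≤ VT T / P' := by
      rw [← hVT, Finset.sum_div]
      refine Finset.sum_le_sum fun i hi => ?_
      rw [mem_Ico] at hi
      exact div_le_div_of_nonneg_left (VT_nn _) hPr (by exact_mod_cast hi.1)
    have h2 := sum_inv_sq P' J h1P hPJ
    have h3 : (0 : ℝ) ≤ 2 / J := by positivity
    linarith
  have hY : ∑ i ∈ Ico P' J, K * y i ^ 2 ≤ 16 * K * (δ * VT T) := by
    rw [← hVT, Finset.mul_sum, Finset.mul_sum]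
    refine Finset.sum_le_sum fun i _ => ?_
    have h1 := hyδ i
    have h2 := hδT i
    have h3 := VT_nn (TB T i)
    have h4 : y i ^ 2 ≤ (4 * VT (TB T i)) ^ 2 := pow_le_pow_left₀ (hy0 i) h1 2
    have h5 : VT (TB T i) ^ 2 ≤ δ * VT (TB T i) := by nlinarith
    calc K * y i ^ 2 ≤ K * (4 * VT (TB T i)) ^ 2 := mul_le_mul_of_nonneg_left h4 hK
      _ = 16 * K * VT (TB T i) ^ 2 := by ring
      _ ≤ 16 * K * (δ * VT (TB T i)) := mul_le_mul_of_nonneg_left h5 (by positivity)
  have hVn := VT_nn T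
  have hcpn : 0 ≤ ∑ q ∈ T, cp q := by
    refine Finset.sum_nonneg fun q _ => Finset.sum_nonneg fun p _ => ?_
    have := Real.log_natCast_nonneg p
    positivity
  rw [Finset.sum_add_distrib]
  have hfin : C * (δ * VT T + VT T / P' + 2 / P' + ∑ q ∈ T, cp q) + 16 * K * (δ * VT T) ≤
      (2 * C + 16 * K) * (δ * VT T + (VT T + 1) / P' + ∑ q ∈ T, cp q) := by
    have h1 : 0 ≤ VT T / P' := by positivity
    have h2 : (0 : ℝ) ≤ 1 / P' := by positivity
    have h3 : 0 ≤ δ * VT T := by positivity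
    have h4 : (VT T + 1) / (P' : ℝ) = VT T / P' + 1 / P' := by ring
    have h5 : (2 : ℝ) / P' = 2 * (1 / P') := by ring
    rw [h4, h5]
    have k1 : 0 ≤ C * (δ * VT T) := by positivity
    have k2 : 0 ≤ C * (VT T / P') := by positivity
    have k3 : 0 ≤ C * ∑ q ∈ T, cp q := by positivity
    have k4 : 0 ≤ K * (VT T / P') := by positivity
    have k5 : 0 ≤ K * (1 / P') := by positivity
    have k6 : 0 ≤ K * ∑ q ∈ T, cp q := by positivity
    nlinarith
  linarith

end Pool.Agent.N413.OW
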